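import Pool.Agent.Q23.AQ.Sc
import Pool.Agent.Q23.AQ.Str

/-!
# `π`, `x = e^q`, `x^x`, `x^y`, `y^x`, `y^y` with `y = π q`, for almost all algebraic numbers `q`

For a number `q > 0` put `x = e ^ q` and `y = π q`. At `q = 1` the six numbers `π`, `x`, `x ^ x`, `x ^ y`, `y ^ x`,
`y ^ y` are `π`, `e`, `e ^ e`, `e ^ π`, `π ^ e`, `π ^ π`. For complex `q` outside the negative real axis we use the
analytic continuations `e^q`, `e^(q e^q)`, `e^(π q²)`, `e^(e^q Log (π q))`, `e^(π q Log (π q))`. For almost all elements `q`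
of number fields of bounded degree (in particular for almost all rational numbers), and for almost all `n`-tuples of them
simultaneously, these numbers satisfy no polynomial relation of bounded degree and polynomially bounded height, not even an
approximate one, and not even relative to arbitrary constants such as `π`, `e`, `e^π`, `π^e`, ….
-/

set_option autoImplicit false

open Set Filter Topology NumberField

namespace Pool.Agent.Results.MP_a49cf6_nt.AlmostAllRationalMultiples

/-- The continuations of `x`, `x ^ x`, `x ^ y`, `y ^ x`, `y ^ y`, where `x = e ^ z` and `y = π z`, to complex `z`. -/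
noncomputable def value (z : ℂ) : Fin 5 → ℂ
  | 0 => Complex.exp z
  | 1 => Complex.exp (z * Complex.exp z)
  | 2 => Complex.exp (Real.pi * z ^ 2)
  | 3 => Complex.exp (Complex.exp z * Complex.log (Real.pi * z))
  | 4 => Complex.exp (Real.pi * z * Complex.log (Real.pi * z))

/-- The elements of the number field `F` with image in `K` which are quotients of two integers of `F` all of whose
conjugates have absolute value at most `T`. -/
def Points (F : Type) [Field F] [NumberField F] (ι : F →+* ℂ) (K : Set ℂ) (T : ℝ) : Set F :=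
  {x | ι x ∈ K ∧ ∃ a b : 𝓞 F, b ≠ 0 ∧ (∀ φ : F →+* ℂ, ‖φ a‖ ≤ T ∧ ‖φ b‖ ≤ T) ∧ x = a / b}

/-- The `n`-tuples `q` of points of `F` for which there is a polynomial `P` of degree at most `d` in each variable, with
coefficients of the form `∑ ξ_a ι(c_a)`, where the `c_a` are integers of `F` all of whose conjugates have absolute value
at most `T ^ A`, such that the value of `P` at the numbers `value (ι (q h)) k` is at most `T ^ (-B)` times the absolute
value of some nonzero coefficient of `P`. -/
def Exceptional (n d : ℕ) {g : ℕ} (F : Type) [Field F] [NumberField F] (ι : F →+* ℂ) (ξ : Fin g → ℂ) (K : Set ℂ)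
    (A B T : ℝ) : Set (Fin n → F) :=
  {q | (∀ h, q h ∈ Points F ι K T) ∧ ∃ P : MvPolynomial (Fin n × Fin 5) ℂ, (∀ x, P.degreeOf x ≤ d) ∧
    (∀ s, ∃ c : Fin g → 𝓞 F, (∀ a (φ : F →+* ℂ), ‖φ (c a)‖ ≤ T ^ A) ∧ P.coeff s = ∑ a, ξ a * ι (c a)) ∧
    ∃ s₀, P.coeff s₀ ≠ 0 ∧ ‖MvPolynomial.aeval (fun x : Fin n × Fin 5 => value (ι (q x.1)) x.2) P‖ ≤
      T ^ (-B) * ‖P.coeff s₀‖}

/-- the functions -/
noncomputable def u : Fin 5 → ℝ → ℝ
  | 0, t => Real.exp t
  | 1, t => Real.exp t ^ Real.exp t
  | 2, t => Real.exp t ^ (Real.pi * t)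
  | 3, t => (Real.pi * t) ^ Real.exp t
  | 4, t => (Real.pi * t) ^ (Real.pi * t)

/-- the scale -/
noncomputable def L : Fin 7 → ℝ → ℝ
  | 0, t => t * Real.exp t
  | 1, t => Real.exp t * Real.log t
  | 2, t => Real.exp t
  | 3, t => t ^ 2
  | 4, t => t * Real.log t
  | 5, t => t
  | 6, t => Real.log t

/-- the coefficients -/
noncomputable def M : Fin 5 → Fin 7 → ℝ :=
  ![![0, 0, 0, 0, 0, 1, 0], ![1, 0, 0, 0, 0, 0, 0], ![0, 0, 0, Real.pi, 0, 0, 0],
    ![0, 1, Real.log Real.pi, 0, 0, 0, 0], ![0, 0, 0, 0, Real.pi, Real.pi * Real.log Real.pi, 0]]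

theorem scales : Q23.AQ.Scales L := by
  refine Q23.AQ.scales_fin L ?_ ?_
  · intro k
    fin_cases k
    · exact tendsto_id.atTop_mul_atTop₀ Real.tendsto_exp_atTop
    · exact Real.tendsto_exp_atTop.atTop_mul_atTop₀ Real.tendsto_log_atTop
    · exact Real.tendsto_exp_atTop
    · exact tendsto_pow_atTop (by norm_num)
    · exact tendsto_id.atTop_mul_atTop₀ Real.tendsto_log_atTop
    · exact tendsto_id
    · exact Real.tendsto_log_atTop
  · intro i h
    have hi : i < 6 := by omega
    interval_cases i
    · refine Q23.AQ.log_div_id.congr' ?_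
      filter_upwards [eventually_gt_atTop 0] with t ht
      show Real.log t / t = Real.exp t * Real.log t / (t * Real.exp t)
      have := (Real.exp_pos t).ne'
      field_simp
    · refine Q23.AQ.inv_log.congr' ?_
      filter_upwards [eventually_gt_atTop 1] with t ht
      show (Real.log t)⁻¹ = Real.exp t / (Real.exp t * Real.log t)
      have := (Real.exp_pos t).ne'
      have := (Real.log_pos ht).ne'
      field_simp
    · exact Q23.AQ.pow_div_exp 2
    · refine Q23.AQ.log_div_id.congr' ?_
      filter_upwards [eventually_gt_atTop 0] with t ht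
      show Real.log t / t = t * Real.log t / t ^ 2
      field_simp
    · refine Q23.AQ.inv_log.congr' ?_
      filter_upwards [eventually_gt_atTop 1] with t ht
      show (Real.log t)⁻¹ = t / (t * Real.log t)
      have := (Real.log_pos ht).ne'
      field_simp
    · exact Q23.AQ.log_div_id

theorem u_pos (k : Fin 5) {t : ℝ} (ht : 0 < t) : 0 < u k t := by
  have h := Real.pi_pos
  fin_cases k
  · exact Real.exp_pos t
  · exact Real.rpow_pos_of_pos (Real.exp_pos t) _
  · exact Real.rpow_pos_of_pos (Real.exp_pos t) _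
  · exact Real.rpow_pos_of_pos (by positivity) _
  · exact Real.rpow_pos_of_pos (by positivity) _

theorem u_log (k : Fin 5) {t : ℝ} (ht : 0 < t) : Real.log (u k t) = ∑ l, M k l * L l t := by
  have h := Real.pi_pos
  have h1 : Real.log (Real.pi * t) = Real.log Real.pi + Real.log t := Real.log_mul h.ne' ht.ne'
  fin_cases k
  · show Real.log (Real.exp t) = _
    simp [Fin.sum_univ_succ, M, L]
  · show Real.log (Real.exp t ^ Real.exp t) = _
    rw [Real.log_rpow (Real.exp_pos t), Real.log_exp]
    simp [Fin.sum_univ_succ, M, L]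
    ring
  · show Real.log (Real.exp t ^ (Real.pi * t)) = _
    rw [Real.log_rpow (Real.exp_pos t), Real.log_exp]
    simp [Fin.sum_univ_succ, M, L]
    ring
  · show Real.log ((Real.pi * t) ^ Real.exp t) = _
    rw [Real.log_rpow (by positivity), h1]
    simp [Fin.sum_univ_succ, M, L]
    ring
  · show Real.log ((Real.pi * t) ^ (Real.pi * t)) = _
    rw [Real.log_rpow (by positivity), h1]
    simp [Fin.sum_univ_succ, M, L]
    ring

theorem u_an (k : Fin 5) {t : ℝ} (ht : 0 < t) : AnalyticAt ℝ (u k) t := by
  have h := Real.pi_pos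
  have he : AnalyticAt ℝ Real.exp t := analyticAt_rexp
  have hp : AnalyticAt ℝ (fun t : ℝ => Real.pi * t) t := analyticAt_const.mul analyticAt_id
  fin_cases k
  · exact he
  · exact Q23.AQ.an_rpow he he (Real.exp_pos t)
  · exact Q23.AQ.an_rpow he hp (Real.exp_pos t)
  · exact Q23.AQ.an_rpow hp he (by positivity)
  · exact Q23.AQ.an_rpow hp hp (by positivity)

theorem ind (d : ℕ) (a b : ℝ) (ha : 0 < a) (hab : a < b) :
    TH818.AP.RIndep (fun (e : Fin 5 → Fin (d + 1)) (t : ℝ) => ∏ k, u k t ^ (e k : ℕ)) a b :=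
  Q23.AQ.rind (d := d) u L scales 6 (Eventually.of_forall fun _ => rfl) M (fun _ _ => 0)
    (fun k => by filter_upwards [eventually_gt_atTop 0] with t ht using u_pos k ht)
    (fun k => by
      filter_upwards [eventually_gt_atTop 0] with t ht
      rw [add_zero]
      exact u_log k ht)
    (fun k l => by simp)
    (by
      intro m n h
      have h0 := h 0
      have h1 := h 1
      have h3 := h 3
      have h4 := h 4
      have h5 := h 5
      simp [Fin.sum_univ_succ, M] at h0 h1 h3 h4 h5
      have hpi := Real.pi_ne_zero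
      have h5' : m 0 = 0 := by
        have h6 : m (Fin.succ (Fin.succ (Fin.succ (Fin.succ 0)))) = 0 := h4
        simp [h4] at h5
        exact_mod_cast h5
      funext k
      fin_cases k
      · exact h5'
      · exact_mod_cast h0
      · exact_mod_cast h3
      · exact_mod_cast h1
      · exact_mod_cast h4)
    a b hab (fun k t ht => u_an k (ha.trans_le ht))

theorem value_real (k : Fin 5) {t : ℝ} (ht : 0 < t) : value (t : ℂ) k = (u k t : ℂ) := by
  have h := Real.pi_pos
  have hl : Complex.log (Real.pi * (t : ℂ)) = (Real.log (Real.pi * t) : ℂ) := by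
    rw [Complex.ofReal_log (by positivity)]
    push_cast
    rfl
  fin_cases k
  · simp [value, u]
  · show Complex.exp ((t : ℂ) * Complex.exp t) = ((Real.exp t ^ Real.exp t : ℝ) : ℂ)
    rw [Real.rpow_def_of_pos (Real.exp_pos t), Real.log_exp]
    push_cast
    rfl
  · show Complex.exp (Real.pi * (t : ℂ) ^ 2) = ((Real.exp t ^ (Real.pi * t) : ℝ) : ℂ)
    rw [Real.rpow_def_of_pos (Real.exp_pos t), Real.log_exp]
    push_cast
    congr 1
    ring
  · show Complex.exp (Complex.exp t * Complex.log (Real.pi * (t : ℂ))) = (((Real.pi * t) ^ Real.exp t : ℝ) : ℂ)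
    rw [Real.rpow_def_of_pos (by positivity), hl]
    push_cast
    congr 1
    ring
  · show Complex.exp (Real.pi * (t : ℂ) * Complex.log (Real.pi * (t : ℂ))) = (((Real.pi * t) ^ (Real.pi * t) : ℝ) : ℂ)
    rw [Real.rpow_def_of_pos (by positivity), hl]
    push_cast
    congr 1
    ring

theorem value_an (k : Fin 5) {z : ℂ} (hz : z ∈ Complex.slitPlane) : AnalyticAt ℂ (fun z => value z k) z := by
  have h1 : AnalyticAt ℂ (fun z : ℂ => z) z := analyticAt_id
  have h2 : AnalyticAt ℂ (fun z : ℂ => Complex.log (Real.pi * z)) z := by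
    refine (analyticAt_const.mul h1).clog ?_
    rw [Complex.mem_slitPlane_iff] at hz ⊢
    rcases hz with h | h
    · left
      simpa using mul_pos Real.pi_pos h
    · right
      simpa using h
  fin_cases k
  · exact h1.cexp
  · exact (h1.mul h1.cexp).cexp
  · exact (analyticAt_const.mul (h1.pow 2)).cexp
  · exact (h1.cexp.mul h2).cexp
  · exact ((analyticAt_const.mul h1).mul h2).cexp

/-- For every compact set `K` of complex numbers which are not real numbers `≤ 0` and all `m`, `n`, `g`, `d`, `A` and `ε > 0`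
there are `B`, `C`, `T₀` such that for every number field `F` of degree at most `m`, every embedding of `F` in `ℂ`, all
complex numbers `ξ_1, …, ξ_g` and all `T ≥ T₀` the number of exceptional `n`-tuples is at most `C T^ε N^(n - 1)`, where `N` is
the number of points of `F` in `K`. -/
theorem result (K : Set ℂ) (hK : IsCompact K) (hKs : K ⊆ Complex.slitPlane) (m n g d : ℕ) (A ε : ℝ) (hε : 0 < ε) :
    ∃ B C T₀ : ℝ, ∀ (F : Type) [Field F] [NumberField F], Module.finrank ℚ F ≤ m → ∀ (ι : F →+* ℂ) (ξ : Fin g → ℂ)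
      (T : ℝ), T₀ ≤ T → (Exceptional n d F ι ξ K A B T).Finite ∧
        ((Exceptional n d F ι ξ K A B T).ncard : ℝ) ≤ C * T ^ ε * ((Points F ι K T).ncard : ℝ) ^ (n - 1) :=
  Q23.AQ.strong u (fun k z => value z k) Complex.slitPlane
    (Complex.starConvex_one_slitPlane.isPathConnected Complex.one_mem_slitPlane).isConnected.isPreconnected (fun k _ hz => value_an k hz) 1 2
    (fun t ht => Complex.ofReal_mem_slitPlane.2 (lt_of_lt_of_le one_pos ht.1))
    (fun k t ht => value_real k (lt_of_lt_of_le one_pos ht.1)) (fun d => ind d 1 2 one_pos one_lt_two) K hK hKs m n g d A ε hε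

end Pool.Agent.Results.MP_a49cf6_nt.AlmostAllRationalMultiples
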