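import Mathlib
import Pool.Agent.TH796.Fin.Fin8

/-!
# The digits of `π + e` and `π e` in two independent bases

Let `S` be an infinite set of integers. For a set `A` of bases let `K_A` be the field generated by
all real numbers with `O(n)` different blocks of `n` digits, `n ∈ S`, in some base of `A`. It
contains `ℚ`. Let `z = e` or `z = π`, and call a finite set `U` of real numbers a *basis set of `z`*
if `z` is algebraic over `ℚ(U)`; for instance `{π + e, π e}`, `{t + e, t e}` for every real `t`, or
the set of the coefficients of a monic polynomial with the root `z`.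

(1) If `A` and `B` generate subgroups of the multiplicative group of `ℚ` with trivial intersection,
then, for `K = K_A` or for `K = K_B`, every set `U` as above contains a number which is
transcendental over `K`.

(2) If `b` and `c` are multiplicatively independent and `U`, `V` are two sets as above, then the
largest one of the numbers of different blocks of `n` digits in the base `b` of the elements of `U`
and in the base `c` of the elements of `V`, divided by `n`, tends to infinity.

(3) For every `S` all the bases `b`, apart from the bases multiplicatively dependent on one base `c`,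
have the property of (1), for the field generated by the real numbers with `O(n)` different blocks
of `n` digits, `n ∈ S`, in some base multiplicatively dependent on `b`.

The theory of the fields `K_A` is in `Pool/Agent/TH796/`.
-/

set_option autoImplicit false

namespace Pool.Agent.Results.MP_a49cf6_nt.BlocksInTwoBases

open Filter

/-- the digit of index `n + 1` after the point in the base `b` expansion of `x` -/
noncomputable def digit (b : ℕ) (x : ℝ) (n : ℕ) : ℤ := ⌊x * (b : ℝ) ^ (n + 1)⌋ % (b : ℤ)

/-- the number of different blocks of `n` consecutive digits (after the point) of `x` in base `b` -/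
noncomputable def blocks (b : ℕ) (x : ℝ) (n : ℕ) : ℕ :=
  (Set.range fun i => fun j : Fin n => digit b x (i + j)).ncard

/-- the field generated by all real numbers which in some base `b ∈ A` have at most `C n` different
blocks of `n` digits for all `n ∈ S`; `b` and `C` may depend on the number. It contains `ℚ`. -/
noncomputable def lowField (S A : Set ℕ) : Subfield ℝ :=
  Subfield.closure {x | ∃ b ∈ A, ∃ C : ℝ, ∀ n ∈ S, (blocks b x n : ℝ) ≤ C * n}

/-- the subgroup of the multiplicative group of `ℚ` generated by `A` -/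
def group (A : Set ℕ) : Subgroup ℚˣ := Subgroup.closure {u | ∃ b ∈ A, ((u : ℚˣ) : ℚ) = b}

/-- multiplicatively independent bases -/
def Independent (b c : ℕ) : Prop := ∀ k l : ℕ, b ^ k = c ^ l → k = 0 ∧ l = 0

/-- `z` is algebraic over the field generated by the finite set `U` -/
def AlgOver (z : ℝ) (U : Finset ℝ) : Prop := IsAlgebraic (Algebra.adjoin ℚ (U : Set ℝ)) z

/-- if `z` is algebraic over `ℚ(U)`, then `U` contains a number which is transcendental over `K` -/
def OneOf (K : Subfield ℝ) (z : ℝ) : Prop :=
  ∀ U : Finset ℝ, AlgOver z U → ∃ u ∈ U, Transcendental K u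

theorem oneOf_of {K : Subfield ℝ} {z : ℝ} (h : Transcendental K z) : OneOf K z := by
  intro U hU
  by_contra hcon
  push Not at hcon
  unfold Transcendental at hcon
  push Not at hcon
  apply h
  have hmem : ∀ x ∈ Algebra.adjoin ℚ (U : Set ℝ), x ∈ algebraicClosure K ℝ := by
    intro x hx
    induction hx using Algebra.adjoin_induction with
    | mem x hx => exact mem_algebraicClosure_iff.2 (hcon x (by simpa using hx))
    | algebraMap r =>
      rw [mem_algebraicClosure_iff]
      have e : (algebraMap ℚ ℝ r) = algebraMap K ℝ (algebraMap ℚ K r) := by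
        simp
      rw [e]
      exact isAlgebraic_algebraMap _
    | add x y _ _ hx hy => exact add_mem hx hy
    | mul x y _ _ hx hy => exact mul_mem hx hy
  obtain ⟨p, hp0, hp⟩ := hU
  set f : Algebra.adjoin ℚ (U : Set ℝ) →+* algebraicClosure K ℝ :=
    (algebraMap (Algebra.adjoin ℚ (U : Set ℝ)) ℝ).codRestrict (algebraicClosure K ℝ)
      (fun x => hmem _ x.2) with hf
  have hinj : Function.Injective f := by
    intro x y hxy
    have h1 := congrArg (fun t : algebraicClosure K ℝ => (t : ℝ)) hxy
    exact Subtype.ext h1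
  have h1 : IsAlgebraic (algebraicClosure K ℝ) z := by
    refine ⟨p.map f, (Polynomial.map_ne_zero_iff hinj).2 hp0, ?_⟩
    rw [Polynomial.aeval_def, Polynomial.eval₂_map]
    rw [Polynomial.aeval_def] at hp
    exact hp
  exact h1.restrictScalars K

theorem mem_lowField {S A : Set ℕ} {b : ℕ} (hb : b ∈ A) {x : ℝ} {C : ℝ}
    (h : ∀ n ∈ S, (blocks b x n : ℝ) ≤ C * n) : x ∈ lowField S A :=
  Subfield.subset_closure ⟨b, hb, C, h⟩

theorem not_transc {K : Subfield ℝ} {x : ℝ} (h : x ∈ K) : ¬ Transcendental K x := by
  intro h1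
  exact h1 (isAlgebraic_algebraMap (⟨x, h⟩ : K))

/-- the example `{t + z, t z}` -/
theorem algOver_pair (t z : ℝ) : AlgOver z {t + z, t * z} := by
  have ha : t + z ∈ Algebra.adjoin ℚ ((({t + z, t * z} : Finset ℝ)) : Set ℝ) :=
    Algebra.subset_adjoin (by simp)
  have hb : t * z ∈ Algebra.adjoin ℚ ((({t + z, t * z} : Finset ℝ)) : Set ℝ) :=
    Algebra.subset_adjoin (by simp)
  set R := Algebra.adjoin ℚ ((({t + z, t * z} : Finset ℝ)) : Set ℝ) with hR
  refine ⟨Polynomial.X ^ 2 - Polynomial.C (⟨t + z, ha⟩ : R) * Polynomial.X +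
    Polynomial.C (⟨t * z, hb⟩ : R), ?_, ?_⟩
  · intro h0
    have h1 := congrArg (fun p : Polynomial R => p.coeff 2) h0
    simp at h1
  · rw [map_add, map_sub, map_pow, map_mul, Polynomial.aeval_X, Polynomial.aeval_C,
      Polynomial.aeval_C]
    show z ^ 2 - (t + z) * z + t * z = 0
    ring

/-- **The digits of `π + e` and `π e` in two independent bases.** See the text at the beginning of
the file; `U = {π + e, π e}` satisfies `AlgOver z U` for `z = e` and for `z = π`. -/
theorem result (z : ℝ) (hz : z = Real.exp 1 ∨ z = Real.pi) :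
    (∀ t : ℝ, AlgOver z {t + z, t * z}) ∧ AlgOver z {Real.pi + Real.exp 1, Real.pi * Real.exp 1} ∧
    (∀ S : Set ℕ, S.Infinite → ∀ A B : Set ℕ, (∀ b ∈ A, 2 ≤ b) → (∀ b ∈ B, 2 ≤ b) →
      group A ⊓ group B = ⊥ → OneOf (lowField S A) z ∨ OneOf (lowField S B) z) ∧
    (∀ b c : ℕ, 2 ≤ b → 2 ≤ c → Independent b c → ∀ U V : Finset ℝ, AlgOver z U → AlgOver z V →
      Tendsto (fun n : ℕ => ((max (U.sup fun u => blocks b u n) (V.sup fun v => blocks c v n) : ℕ)
        : ℝ) / n) atTop atTop) ∧
    (∀ S : Set ℕ, S.Infinite → ∃ c : ℕ, 2 ≤ c ∧ ∀ b : ℕ, 2 ≤ b → Independent b c →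
      OneOf (lowField S {d | 2 ≤ d ∧ ¬ Independent d b}) z) := by
  have hm : Pool.Agent.TH456.TM.MeasT (z : ℂ) :=
    Pool.Agent.TH796.AL.Ai.measT_of (by
      rcases hz with h | h
      · exact Or.inl h
      · exact Or.inr (Or.inl h))
  have ht : Transcendental ℚ z := Pool.Agent.TH796.AL.Alg.transc_of_measT hm
  have hU : ¬ Pool.Agent.TH796.AL.Ai.UNumber z := Pool.Agent.TH796.AL.Ai.not_unumber hm
  have h1 : ∀ S : Set ℕ, S.Infinite → ∀ A B : Set ℕ, (∀ b ∈ A, 2 ≤ b) → (∀ b ∈ B, 2 ≤ b) →
      group A ⊓ group B = ⊥ → OneOf (lowField S A) z ∨ OneOf (lowField S B) z := by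
    intro S hS A B hA hB hAB
    rcases Pool.Agent.TH796.AL.Alg.free_pair ht hU hA hB hAB hS with h | h
    · exact Or.inl (oneOf_of h.1)
    · exact Or.inr (oneOf_of h.1)
  refine ⟨fun t => algOver_pair t z, ?_, h1, ?_, fun S hS => ?_⟩
  · rcases hz with rfl | rfl
    · exact algOver_pair Real.pi (Real.exp 1)
    · rw [add_comm, mul_comm]
      exact algOver_pair (Real.exp 1) Real.pi
  · intro b c hb hc hbc U V hUz hVz
    by_contra hcon
    rw [tendsto_atTop] at hcon
    push Not at hcon
    obtain ⟨C, hC⟩ := hcon
    set S : Set ℕ := {n : ℕ | 1 ≤ n ∧ ((max (U.sup fun u => blocks b u n)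
      (V.sup fun v => blocks c v n) : ℕ) : ℝ) / n < C} with hSdef
    have hS : S.Infinite := by
      rw [← Nat.frequently_atTop_iff_infinite]
      exact (hC.and_eventually (eventually_ge_atTop 1)).mono fun n hn => ⟨hn.2, hn.1⟩
    have hle : ∀ n ∈ S, ((max (U.sup fun u => blocks b u n)
        (V.sup fun v => blocks c v n) : ℕ) : ℝ) ≤ C * n := by
      rintro n ⟨hn1, hn2⟩
      have hn0 : (0:ℝ) < n := by exact_mod_cast hn1
      exact ((div_lt_iff₀ hn0).1 hn2).le
    rcases h1 S hS {b} {c} (by simpa using hb) (by simpa using hc)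
      (Pool.Agent.TH796.AL.Ai.group_inf hb hc hbc) with h | h
    · obtain ⟨u, hu, hut⟩ := h U hUz
      refine not_transc (mem_lowField (C := C) (Set.mem_singleton b) fun n hn => ?_) hut
      refine le_trans ?_ (hle n hn)
      exact_mod_cast (Finset.le_sup (f := fun u => blocks b u n) hu).trans (le_max_left _ _)
    · obtain ⟨v, hv, hvt⟩ := h V hVz
      refine not_transc (mem_lowField (C := C) (Set.mem_singleton c) fun n hn => ?_) hvt
      refine le_trans ?_ (hle n hn)
      exact_mod_cast (Finset.le_sup (f := fun v => blocks c v n) hv).trans (le_max_right _ _)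
  · obtain ⟨c, hc, h⟩ := Pool.Agent.TH796.Fin.free_cls ht hU hS
    exact ⟨c, hc, fun b hb hbc => oneOf_of (h b hb hbc).1⟩

end Pool.Agent.Results.MP_a49cf6_nt.BlocksInTwoBases
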