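import Mathlib
import Pool.Agent.Q29.DigBiv

/-!
# The digits of the values of polynomials at `(e, π)`, `(e, e ^ e)`, `(π, π ^ π)`, …

Let `z = e` or `z = π`, and let `t` be any real number (for instance the other one of `e`, `π`, or `e ^ e`, `π ^ e`,
`π ^ π`). Two polynomials `f`, `f'` in two variables `x`, `y` are called independent here if `f - a` and `f' - a'` are
coprime over `ℚ(x)` for all rational numbers `a`, `a'`; for instance `y + r x` and `y + s x`, `r ≠ s`, or `y + r x` and
`x ^ k y`, `r ≠ 0`. Then the numbers `f(z, t)` and `f'(z, t)` are not both rational, since `z` is transcendental. We prove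
that their digits are not both simple at the same scale, in a form which is uniform in `f`, `f'` and the bases: for all
`D`, `E` there is an exponent `κ` such that for all independent `f`, `f'` of degree at most `E` in `x` and at most `D` in `y`
with coefficients bounded by `e^(δ Λ)` and all bases `g, g' ≤ e^(δ Λ)` one of the linear complexities (the least order of
a linear recurrence) of the first `⌊Λ / log g⌋` digits of `f(z, t)` in base `g` and of the first `⌊Λ / log g'⌋` digits of
`f'(z, t)` in base `g'` is at least `(1 / (κ + 1) - ε) Λ / log g`, respectively `(1 / (κ + 1) - ε) Λ / log g'`. So if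
`f_1, …, f_n` are pairwise independent, then at each scale at least `n - 1` of the numbers `f_i(e, π)` have complex
digits in all bases.

The proof uses the resultant of `q f - p` and `q' f' - p'` and the transcendence measure of `z` in the starting files
`Pool/Agent/TH456/TM/`, and the approximations given by a short recurrence of digits, uniformly in the base
(`Pool/Agent/Y928/PL/Mixed.lean`). The case of `t + e`, `t e` in one base is in `DigitRecurrences.lean` here.
-/

set_option autoImplicit false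

namespace Pool.Agent.Results.MP_a49cf6_nt.DigitsOfPolynomialPairs

open Finset Polynomial

/-- the `i`-th digit of `x` after the point in base `g` -/
noncomputable def digit (g : ℕ) (x : ℝ) (i : ℕ) : ℤ := ⌊x * (g : ℝ) ^ i⌋ % (g : ℤ)

/-- the linear complexity of the first `L` digits of `x` in base `g`: the least `m` such that for some
rational numbers `c_0, …, c_(m-1)` one has `s_(i+m) = c_0 s_i + … + c_(m-1) s_(i+m-1)` for
`1 ≤ i ≤ L - m`, where `s_i` is the `i`-th digit -/
noncomputable def complexity (g : ℕ) (x : ℝ) (L : ℕ) : ℕ :=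
  sInf {m | ∃ c : ℕ → ℚ, ∀ i : ℕ, 1 ≤ i → i + m ≤ L →
    (digit g x (i + m) : ℚ) = ∑ j ∈ range m, c j * (digit g x (i + j) : ℚ)}

/-- the function `m + C √((m+1) log (m+2))` -/
noncomputable def F (C : ℝ) (m : ℕ) : ℝ :=
  m + C * Real.sqrt (((m : ℝ) + 1) * Real.log ((m : ℝ) + 2))

/-- the value `f(z, t)` of a polynomial in two variables, an element of `ℤ[x][y]` -/
noncomputable def val (z t : ℝ) (f : ℤ[X][X]) : ℝ := eval₂ (aeval z : ℤ[X] →ₐ[ℤ] ℝ).toRingHom t f

/-- `f - a` and `f' - a'` are coprime over the field `ℚ(x)` for all rational `a`, `a'` -/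
def Independent (f f' : ℤ[X][X]) : Prop :=
  ∀ a a' : ℚ, IsCoprime (f.map (algebraMap ℤ[X] (FractionRing ℤ[X])) - C (a : FractionRing ℤ[X]))
    (f'.map (algebraMap ℤ[X] (FractionRing ℤ[X])) - C (a' : FractionRing ℤ[X]))

/-- the polynomials `f` of degree between `1` and `D` in `y`, at most `E` in `x`, with coefficients bounded by `M` -/
def Poly (D E : ℕ) (M : ℝ) : Set ℤ[X][X] :=
  {f | 0 < f.natDegree ∧ f.natDegree ≤ D ∧ (∀ j, (f.coeff j).natDegree ≤ E) ∧
    ∀ j i, |((f.coeff j).coeff i : ℝ)| ≤ M}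

theorem trans_x : Transcendental ℚ (algebraMap ℤ[X] (FractionRing ℤ[X]) X) := by
  have h1 : Transcendental ℤ (algebraMap ℤ[X] (FractionRing ℤ[X]) X) := by
    rw [transcendental_iff]
    intro p hp
    rw [aeval_algebraMap_apply, aeval_X_left_apply] at hp
    exact (IsFractionRing.injective ℤ[X] (FractionRing ℤ[X])) (by rw [hp, map_zero])
  have := IsScalarTower.of_algebraMap_eq (R := ℤ) (S := ℚ) (A := FractionRing ℤ[X]) (fun x => by simp)
  intro h2
  exact h1 ((IsFractionRing.isAlgebraic_iff ℤ ℚ (FractionRing ℤ[X])).2 h2)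

theorem coprime_of {K : Type} [Field K] (A B U V : K[X]) (c : K) (hc : c ≠ 0) (h : U * A + V * B = C c) :
    IsCoprime A B := by
  refine ⟨C c⁻¹ * U, C c⁻¹ * V, ?_⟩
  calc C c⁻¹ * U * A + C c⁻¹ * V * B = C c⁻¹ * (U * A + V * B) := by ring
    _ = 1 := by rw [h, ← C_mul, inv_mul_cancel₀ hc, C_1]

/-- `y + r x` and `y + s x` -/
theorem indep_add (r s : ℤ) (h : r ≠ s) : Independent (X + C (C r * X)) (X + C (C s * X)) := by
  intro a a'
  obtain ⟨x, hx⟩ : ∃ x, x = algebraMap ℤ[X] (FractionRing ℤ[X]) X := ⟨_, rfl⟩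
  have hne : (r : FractionRing ℤ[X]) * x - s * x - a + a' ≠ 0 := by
    intro h0
    have h1 := trans_x
    rw [transcendental_iff] at h1
    have h2 := h1 (C ((r : ℚ) - s) * X - C (a - a')) (by
      rw [← hx]
      simp only [map_sub, map_mul, aeval_C, aeval_X, eq_ratCast, Rat.cast_sub, Rat.cast_intCast]
      linear_combination h0)
    have h3 := congrArg (fun p : ℚ[X] => p.coeff 1) h2
    simp only [coeff_sub, coeff_C_mul, coeff_X_one, coeff_C_succ, mul_one, sub_zero, coeff_zero] at h3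
    apply h
    have h4 : (r : ℚ) = s := by linarith
    exact_mod_cast h4
  refine coprime_of _ _ 1 (-1) _ hne ?_
  simp only [Polynomial.map_add, Polynomial.map_mul, Polynomial.map_pow, Polynomial.map_intCast, map_X, map_C, map_mul,
    map_pow, ← hx, C_sub, C_add, C_mul, C_pow, eq_intCast, map_intCast]
  ring

/-- `y + r x` and `x ^ k y` -/
theorem indep_mul (r : ℤ) (k : ℕ) (h : r ≠ 0) : Independent (X + C (C r * X)) (C (X ^ k) * X) := by
  intro a a'
  obtain ⟨x, hx⟩ : ∃ x, x = algebraMap ℤ[X] (FractionRing ℤ[X]) X := ⟨_, rfl⟩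
  have hne : x ^ k * ((r : FractionRing ℤ[X]) * x - a) + a' ≠ 0 := by
    intro h0
    have h1 := trans_x
    rw [transcendental_iff] at h1
    have h2 := h1 (C (r : ℚ) * X ^ (k + 1) - C a * X ^ k + C a') (by
      rw [← hx]
      simp only [map_sub, map_add, map_mul, map_pow, aeval_C, aeval_X, eq_ratCast, Rat.cast_intCast]
      linear_combination h0)
    have h3 := congrArg (fun p : ℚ[X] => p.coeff (k + 1)) h2
    simp only [coeff_add, coeff_sub, coeff_C_mul, coeff_X_pow, coeff_C_succ, coeff_zero, if_true, mul_one, add_zero,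
      if_neg (show k + 1 ≠ k by omega), mul_zero, sub_zero] at h3
    exact h (by exact_mod_cast h3)
  refine coprime_of _ _ (C (x ^ k)) (-1) _ hne ?_
  simp only [Polynomial.map_add, Polynomial.map_mul, Polynomial.map_pow, Polynomial.map_intCast, map_X, map_C, map_mul,
    map_pow, ← hx, C_sub, C_add, C_mul, C_pow, eq_intCast, map_intCast]
  ring

/-- **The digits of the values of two independent polynomials.** Let `z = e` or `z = π`. For all `D ≥ 1`, `E` there is
`κ` such that the following holds. (1) For `T ≥ 1` there is `C` such that for all real `t`, `|t| ≤ T`, all independent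
`f`, `f'` of degree at most `D` in `y`, at most `E` in `x`, with coefficients bounded by `M`, all bases `g`, `g'` and all
`L`, `L'`, if `F(N) log g ≤ α` and `F(N') log g' ≤ α` for the linear complexities `N`, `N'` of the first `L` digits of
`f(z, t)` in base `g` and the first `L'` digits of `f'(z, t)` in base `g'`, then
`min (L log g, L' log g') ≤ (κ + 1) α + κ log M`. (2) For `T ≥ 1`, `ε > 0` there is `δ > 0` such that for all `Λ ≥ 1`,
`|t| ≤ T`, all such `f`, `f'` with `M = e^(δ Λ)` and all bases at most `e^(δ Λ)` one of the complexities of the first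
`⌊Λ / log g⌋`, `⌊Λ / log g'⌋` digits is at least `(1 / (κ + 1) - ε) Λ / log g`, respectively
`(1 / (κ + 1) - ε) Λ / log g'`. (3) Examples of independent pairs. -/
theorem result :
    (∀ z : ℝ, z = Real.exp 1 ∨ z = Real.pi → ∀ D E : ℕ, 1 ≤ D → ∃ κ : ℝ, 3 ≤ κ ∧
      (∀ T : ℝ, 1 ≤ T → ∃ C : ℝ, 0 < C ∧ ∀ t : ℝ, |t| ≤ T → ∀ M : ℝ, 1 ≤ M →
        ∀ f ∈ Poly D E M, ∀ f' ∈ Poly D E M, Independent f f' →
        ∀ g g' : ℕ, 2 ≤ g → 2 ≤ g' → ∀ (L L' : ℕ) (Λ α : ℝ), Λ ≤ L * Real.log g → Λ ≤ L' * Real.log g' →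
          F C (complexity g (val z t f) L) * Real.log g ≤ α →
          F C (complexity g' (val z t f') L') * Real.log g' ≤ α → Λ ≤ (κ + 1) * α + κ * Real.log M) ∧
      (∀ T ε : ℝ, 1 ≤ T → 0 < ε → ∃ δ : ℝ, 0 < δ ∧ ∀ t : ℝ, |t| ≤ T → ∀ Λ : ℝ, 1 ≤ Λ →
        ∀ f ∈ Poly D E (Real.exp (δ * Λ)), ∀ f' ∈ Poly D E (Real.exp (δ * Λ)), Independent f f' →
        ∀ g g' : ℕ, 2 ≤ g → 2 ≤ g' → (g : ℝ) ≤ Real.exp (δ * Λ) → (g' : ℝ) ≤ Real.exp (δ * Λ) →
          (1 / (κ + 1) - ε) * (Λ / Real.log g) ≤ complexity g (val z t f) ⌊Λ / Real.log g⌋₊ ∨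
          (1 / (κ + 1) - ε) * (Λ / Real.log g') ≤ complexity g' (val z t f') ⌊Λ / Real.log g'⌋₊)) ∧
    (∀ r s : ℤ, r ≠ s → Independent (X + C (C r * X)) (X + C (C s * X))) ∧
    (∀ (r : ℤ) (k : ℕ), r ≠ 0 → Independent (X + C (C r * X)) (C (X ^ k) * X)) := by
  refine ⟨?_, indep_add, indep_mul⟩
  intro z hz D E hD
  have hm : Pool.Agent.TH456.TM.MeasT (z : ℂ) := by
    rcases hz with rfl | rfl
    · exact Pool.Agent.TH456.TM.measT_e
    · exact Pool.Agent.TH456.TM.measT_pi
  obtain ⟨κ, hκ, h⟩ := Pool.Agent.Q29.DD.biv_digits z hm D E hD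
  refine ⟨κ, hκ, ?_, ?_⟩
  · intro T hT
    obtain ⟨C, hC, h1⟩ := h T hT
    refine ⟨C, hC, fun t ht M hM f hf f' hf' hind g g' hg hg' L L' Λ α hΛ hΛ' hα hα' => ?_⟩
    exact h1 t ht f f' hind hf.1 hf'.1 hf.2.1 hf'.2.1 hf.2.2.1 hf'.2.2.1 M hM hf.2.2.2 hf'.2.2.2 g g' hg hg' L L' Λ α
      hΛ hΛ' hα hα'
  · intro T ε hT hε
    obtain ⟨C, hC, h1⟩ := h T hT
    obtain ⟨δ, hδ, h2⟩ := Pool.Agent.Q29.DD.scale (n := 2) (κ + 1) C κ ε (by linarith) hC (by linarith) hε
    refine ⟨δ, hδ, ?_⟩
    intro t ht Λ hΛ f hf f' hf' hind g g' hg hg' hgL hgL'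
    obtain ⟨k, hk⟩ := h2 Λ hΛ ![val z t f, val z t f'] ![g, g']
      (by intro k; fin_cases k; exacts [hg, hg']) (by intro k; fin_cases k; exacts [hgL, hgL']) (by
        intro L a Λ' hL ha
        have h3 := h1 t ht f f' hind hf.1 hf'.1 hf.2.1 hf'.2.1 hf.2.2.1 hf'.2.2.1 (Real.exp (δ * Λ))
          (Real.one_le_exp (by positivity)) hf.2.2.2 hf'.2.2.2 g g' hg hg' (L 0) (L 1) Λ' a (hL 0) (hL 1) (ha 0) (ha 1)
        rwa [Real.log_exp] at h3)
    fin_cases k
    · exact Or.inl hk
    · exact Or.inr hk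

end Pool.Agent.Results.MP_a49cf6_nt.DigitsOfPolynomialPairs
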