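import Mathlib
import Pool.Agent.Q29.EqBiv

/-!
# Uniform distribution of the multiples of `f(e, π)`, `f'(e, π)` for independent polynomials `f`, `f'`

Let `z = e` or `z = π`, and let `t` be any real number (for instance the other one of `e`, `π`, or `e ^ e`, `π ^ e`,
`π ^ π`). Two polynomials `f`, `f'` in two variables `x`, `y` are called independent here if `f - a` and `f' - a'` are
coprime over `ℚ(x)` for all rational numbers `a`, `a'`; for instance `y + r x` and `y + s x`, `r ≠ s`, or `y + r x` and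
`x ^ k y`, `r ≠ 0`. Then the numbers `f(z, t)` and `f'(z, t)` are not both rational, since `z` is transcendental. The
multiples of a rational number by the integers up to `M`, by their powers or by the primes up to `M` are not uniformly
distributed modulo one at any large scale `M`. We prove that the numbers `f(z, t)` and `f'(z, t)` never both have such a
defect at comparable scales, uniformly in `f`, `f'`: for all `D`, `E`, `K` and `A` there is `κ > 0` such that for all large
`N` and all independent `f`, `f'` of degree at most `E` in `x` and at most `D` in `y` with coefficients bounded by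
`N ^ κ`, one of the two numbers, say `w`, has the following property for all `M` from `N` to `N ^ A` at once. The
multiples of `w` by the integers up to `M`, by their `k`-th powers, `k ≤ K` (even with a real polynomial of degree less
than `k` added), and by the primes up to `M` in each residue class modulo `d ≤ M ^ κ`, are uniformly distributed modulo
one with an error `M ^ (1 - κ)`. So if `f_1, …, f_n` are pairwise independent, then for every large `N` at least `n - 1`
of the numbers `f_i(e, π)` have this property.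

The proof uses the resultant of `q f - p` and `q' f' - p'` and the transcendence measure of `z` in the starting files
`Pool/Agent/TH456/TM/`, an inverse theorem for the sums of Weyl and a form of the estimate of Vinogradov for the sums
over primes with a power saving from the starting files (`H373R2/NB`, `W110/HV`).
-/

set_option autoImplicit false

namespace Pool.Agent.Results.MP_a49cf6_nt.MultiplesAlongPrimes

open Finset Polynomial

/-- The multiples of `x` are uniformly distributed at the scale `M`, with a power saving, along all polynomials of degree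
at most `K` and along the primes of all residue classes:

* for every nonzero integer `b` with `|b| ≤ M ^ κ`, every `1 ≤ k ≤ K` and every real polynomial `R` of degree less than
  `k`, the number of `0 ≤ n < M` with the fractional part of `b x n ^ k + R(n)` in `[u, v)` is `(v - u) M` up to
  `M ^ (1 - κ)`, for all `0 ≤ u ≤ v ≤ 1`;
* for every such `b`, every `1 ≤ d ≤ M ^ κ`, every `r` and every real `β`, the number of primes `p ≤ M` with
  `p ≡ r (mod d)` and the fractional part of `b x p + β` in `[u, v)` is `(v - u)` times the number of all the primes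
  `p ≤ M` with `p ≡ r (mod d)`, up to `M ^ (1 - κ)`. -/
def Good (κ : ℝ) (K M : ℕ) (x : ℝ) : Prop :=
  (∀ b : ℤ, b ≠ 0 → |(b : ℝ)| ≤ (M : ℝ) ^ κ → ∀ k : ℕ, 1 ≤ k → k ≤ K → ∀ R : ℝ[X], R.degree < k →
    ∀ u v : ℝ, 0 ≤ u → u ≤ v → v ≤ 1 →
      |(((range M).filter fun n : ℕ => u ≤ Int.fract (b * x * (n : ℝ) ^ k + R.eval (n : ℝ)) ∧
          Int.fract (b * x * (n : ℝ) ^ k + R.eval (n : ℝ)) < v).card : ℝ) - (v - u) * M| ≤
        (M : ℝ) ^ (1 - κ)) ∧
  (∀ b : ℤ, b ≠ 0 → |(b : ℝ)| ≤ (M : ℝ) ^ κ → ∀ d r : ℕ, 1 ≤ d → (d : ℝ) ≤ (M : ℝ) ^ κ → ∀ β : ℝ,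
    ∀ u v : ℝ, 0 ≤ u → u ≤ v → v ≤ 1 →
      |(((range (M + 1)).filter fun p : ℕ => (p.Prime ∧ p ≡ r [MOD d]) ∧
          (u ≤ Int.fract (b * x * p + β) ∧ Int.fract (b * x * p + β) < v)).card : ℝ) -
        (v - u) * ((range (M + 1)).filter fun p : ℕ => p.Prime ∧ p ≡ r [MOD d]).card| ≤
        (M : ℝ) ^ (1 - κ))

/-- the multiples of `x` are uniformly distributed at all the scales from `N` to `N ^ A` -/
def GoodRange (x : ℝ) (K : ℕ) (A κ : ℝ) (N : ℕ) : Prop :=
  ∀ M : ℕ, N ≤ M → (M : ℝ) ≤ (N : ℝ) ^ A → Good κ K M x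

theorem good_iff (κ : ℝ) (K M : ℕ) (x : ℝ) : Good κ K M x ↔ Pool.Agent.Q29.Eqd.Good κ K M x := Iff.rfl

theorem goodRange_iff (x : ℝ) (K : ℕ) (A κ : ℝ) (N : ℕ) :
    GoodRange x K A κ N ↔ Pool.Agent.Q29.Eqd.GoodRange x K A κ N := by
  unfold GoodRange Pool.Agent.Q29.Eqd.GoodRange
  simp only [good_iff]

/-- the value `f(z, t)` of a polynomial in two variables, an element of `ℤ[x][y]` -/
noncomputable def val (z t : ℝ) (f : ℤ[X][X]) : ℝ := eval₂ (aeval z : ℤ[X] →ₐ[ℤ] ℝ).toRingHom t f

/-- `f - a` and `f' - a'` are coprime over the field `ℚ(x)` for all rational `a`, `a'` -/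
def Independent (f f' : ℤ[X][X]) : Prop :=
  ∀ a a' : ℚ, IsCoprime (f.map (algebraMap ℤ[X] (FractionRing ℤ[X])) - C (a : FractionRing ℤ[X]))
    (f'.map (algebraMap ℤ[X] (FractionRing ℤ[X])) - C (a' : FractionRing ℤ[X]))

/-- the polynomials `f` of degree between `1` and `D` in `y`, at most `E` in `x`, with coefficients bounded by `M` -/
def Poly (D E : ℕ) (M : ℝ) : Set ℤ[X][X] :=
  {f | 0 < f.natDegree ∧ f.natDegree ≤ D ∧ (∀ j, (f.coeff j).natDegree ≤ E) ∧
    ∀ j i, |((f.coeff j).coeff i : ℝ)| ≤ M}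

theorem trans_x : Transcendental ℚ (algebraMap ℤ[X] (FractionRing ℤ[X]) X) := by
  have h1 : Transcendental ℤ (algebraMap ℤ[X] (FractionRing ℤ[X]) X) := by
    rw [transcendental_iff]
    intro p hp
    rw [aeval_algebraMap_apply, aeval_X_left_apply] at hp
    exact (IsFractionRing.injective ℤ[X] (FractionRing ℤ[X])) (by rw [hp, map_zero])
  have := IsScalarTower.of_algebraMap_eq (R := ℤ) (S := ℚ) (A := FractionRing ℤ[X]) (fun x => by simp)
  intro h2
  exact h1 ((IsFractionRing.isAlgebraic_iff ℤ ℚ (FractionRing ℤ[X])).2 h2)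

theorem coprime_of {K : Type} [Field K] (A B U V : K[X]) (c : K) (hc : c ≠ 0) (h : U * A + V * B = C c) :
    IsCoprime A B := by
  refine ⟨C c⁻¹ * U, C c⁻¹ * V, ?_⟩
  calc C c⁻¹ * U * A + C c⁻¹ * V * B = C c⁻¹ * (U * A + V * B) := by ring
    _ = 1 := by rw [h, ← C_mul, inv_mul_cancel₀ hc, C_1]

/-- `y + r x` and `y + s x` -/
theorem indep_add (r s : ℤ) (h : r ≠ s) : Independent (X + C (C r * X)) (X + C (C s * X)) := by
  intro a a'
  obtain ⟨x, hx⟩ : ∃ x, x = algebraMap ℤ[X] (FractionRing ℤ[X]) X := ⟨_, rfl⟩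
  have hne : (r : FractionRing ℤ[X]) * x - s * x - a + a' ≠ 0 := by
    intro h0
    have h1 := trans_x
    rw [transcendental_iff] at h1
    have h2 := h1 (C ((r : ℚ) - s) * X - C (a - a')) (by
      rw [← hx]
      simp only [map_sub, map_mul, aeval_C, aeval_X, eq_ratCast, Rat.cast_sub, Rat.cast_intCast]
      linear_combination h0)
    have h3 := congrArg (fun p : ℚ[X] => p.coeff 1) h2
    simp only [coeff_sub, coeff_C_mul, coeff_X_one, coeff_C_succ, mul_one, sub_zero, coeff_zero] at h3
    apply h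
    have h4 : (r : ℚ) = s := by linarith
    exact_mod_cast h4
  refine coprime_of _ _ 1 (-1) _ hne ?_
  simp only [Polynomial.map_add, Polynomial.map_mul, Polynomial.map_pow, Polynomial.map_intCast, map_X, map_C, map_mul,
    map_pow, ← hx, C_sub, C_add, C_mul, C_pow, eq_intCast, map_intCast]
  ring

/-- `y + r x` and `x ^ k y` -/
theorem indep_mul (r : ℤ) (k : ℕ) (h : r ≠ 0) : Independent (X + C (C r * X)) (C (X ^ k) * X) := by
  intro a a'
  obtain ⟨x, hx⟩ : ∃ x, x = algebraMap ℤ[X] (FractionRing ℤ[X]) X := ⟨_, rfl⟩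
  have hne : x ^ k * ((r : FractionRing ℤ[X]) * x - a) + a' ≠ 0 := by
    intro h0
    have h1 := trans_x
    rw [transcendental_iff] at h1
    have h2 := h1 (C (r : ℚ) * X ^ (k + 1) - C a * X ^ k + C a') (by
      rw [← hx]
      simp only [map_sub, map_add, map_mul, map_pow, aeval_C, aeval_X, eq_ratCast, Rat.cast_intCast]
      linear_combination h0)
    have h3 := congrArg (fun p : ℚ[X] => p.coeff (k + 1)) h2
    simp only [coeff_add, coeff_sub, coeff_C_mul, coeff_X_pow, coeff_C_succ, coeff_zero, if_true, mul_one, add_zero,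
      if_neg (show k + 1 ≠ k by omega), mul_zero, sub_zero] at h3
    exact h (by exact_mod_cast h3)
  refine coprime_of _ _ (C (x ^ k)) (-1) _ hne ?_
  simp only [Polynomial.map_add, Polynomial.map_mul, Polynomial.map_pow, Polynomial.map_intCast, map_X, map_C, map_mul,
    map_pow, ← hx, C_sub, C_add, C_mul, C_pow, eq_intCast, map_intCast]
  ring

/-- **Uniform distribution of the multiples of the values of two independent polynomials.** Let `z = e` or `z = π`. (1)
For all `D ≥ 1`, `E`, `K` and every `A ≥ 1` there is `κ > 0` such that for every `T ≥ 1` there is `N₀` such that for all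
`N ≥ N₀`, all real `t`, `|t| ≤ T`, and all independent `f`, `f'` of degree at most `D` in `y`, at most `E` in `x`, with
coefficients bounded by `N ^ κ`, the multiples of `f(z, t)` are uniformly distributed at all the scales from `N` to
`N ^ A`, or those of `f'(z, t)` are. (2), (3) Examples of independent pairs. -/
theorem result :
    (∀ z : ℝ, z = Real.exp 1 ∨ z = Real.pi → ∀ (D E K : ℕ) (A : ℝ), 1 ≤ D → 1 ≤ A → ∃ κ : ℝ, 0 < κ ∧
      ∀ T : ℝ, 1 ≤ T → ∃ N₀ : ℕ, ∀ N : ℕ, N₀ ≤ N → ∀ t : ℝ, |t| ≤ T →
        ∀ f ∈ Poly D E ((N : ℝ) ^ κ), ∀ f' ∈ Poly D E ((N : ℝ) ^ κ), Independent f f' →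
          GoodRange (val z t f) K A κ N ∨ GoodRange (val z t f') K A κ N) ∧
    (∀ r s : ℤ, r ≠ s → Independent (X + C (C r * X)) (X + C (C s * X))) ∧
    (∀ (r : ℤ) (k : ℕ), r ≠ 0 → Independent (X + C (C r * X)) (C (X ^ k) * X)) := by
  refine ⟨?_, indep_add, indep_mul⟩
  intro z hz D E K A hD hA
  have hm : Pool.Agent.TH456.TM.MeasT (z : ℂ) := by
    rcases hz with rfl | rfl
    · exact Pool.Agent.TH456.TM.measT_e
    · exact Pool.Agent.TH456.TM.measT_pi
  obtain ⟨κ, hκ, h⟩ := Pool.Agent.Q29.Eqd.biv_good z hm D E K A hD hA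
  refine ⟨κ, hκ, fun T hT => ?_⟩
  obtain ⟨N₀, -, hN₀⟩ := h T hT
  refine ⟨N₀, fun N hN t ht f hf f' hf' hind => ?_⟩
  rw [goodRange_iff, goodRange_iff]
  exact hN₀ N hN t ht f f' hind hf.1 hf'.1 hf.2.1 hf'.2.1 hf.2.2.1 hf'.2.2.1 hf.2.2.2 hf'.2.2.2

end Pool.Agent.Results.MP_a49cf6_nt.MultiplesAlongPrimes
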